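import Pool.Agent.Helper69.HG.Stm
import Pool.Agent.Helper85.PW.Rough
import Pool.Agent.Helper84.EA.Mert

/-!
# Hall gaps, block CS: the sums of the reciprocals of the primes of a cell; the size of `V'`
-/

open Finset

set_option autoImplicit false

namespace Pool.Agent.Helper65.HG

open Pool.Agent.Helper69.HG (InCell Vp CS)
open Pool.Agent.Helper5.RM (PP)

/-- the primes between `y` and `y²` -/
theorem sum_sq : ∃ c₀ : ℝ, 0 < c₀ ∧ ∀ y : ℝ, 1 < y → ∀ S : Finset ℕ, (∀ p ∈ S, p.Prime ∧ y < (p : ℝ) ∧ (p : ℝ) ≤ y ^ 2) →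
    ∑ p ∈ S, 1 / (p : ℝ) ≤ c₀ := by
  obtain ⟨C, hC, h⟩ := Pool.Agent.Helper51.EA.mert1
  have hl2 : 0 < Real.log 2 := Real.log_pos (by norm_num)
  refine ⟨2 + 2 * C / Real.log 2, by positivity, fun y hy S hS => ?_⟩
  rcases lt_or_ge y 2 with hy2 | hy2
  · -- the primes 2 and 3
    have h1 : S ⊆ {2, 3} := by
      intro p hp
      obtain ⟨h2, h3, h4⟩ := hS p hp
      have h5 : (p : ℝ) < 4 := by nlinarith
      have h6 : p < 4 := by exact_mod_cast h5
      have h7 := h2.two_le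
      simp only [mem_insert, mem_singleton]
      omega
    calc ∑ p ∈ S, 1 / (p : ℝ) ≤ ∑ p ∈ ({2, 3} : Finset ℕ), 1 / (p : ℝ) :=
          sum_le_sum_of_subset_of_nonneg h1 fun p _ _ => by positivity
      _ ≤ 2 := by
          rw [sum_insert (by decide), sum_singleton]
          norm_num
      _ ≤ _ := by
          have : 0 ≤ 2 * C / Real.log 2 := by positivity
          linarith
  · have hy0 : 0 < y := by linarith
    have hly : 0 < Real.log y := Real.log_pos hy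
    have hN1 : 1 ≤ ⌊y⌋₊ := Nat.le_floor (by push_cast; linarith)
    have hN2 : 1 ≤ ⌊y ^ 2⌋₊ := Nat.le_floor (by push_cast; nlinarith)
    have hsub : PP ⌊y⌋₊ ⊆ PP ⌊y ^ 2⌋₊ := by
      intro p hp
      simp only [PP, mem_filter, mem_Icc] at hp ⊢
      exact ⟨⟨hp.1.1, hp.1.2.trans (Nat.floor_le_floor (by nlinarith))⟩, hp.2⟩
    have hS' : S ⊆ PP ⌊y ^ 2⌋₊ \ PP ⌊y⌋₊ := by
      intro p hp
      obtain ⟨h2, h3, h4⟩ := hS p hp
      simp only [PP, mem_sdiff, mem_filter, mem_Icc]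
      refine ⟨⟨⟨h2.one_le, Nat.le_floor h4⟩, h2⟩, fun h5 => ?_⟩
      exact absurd ((Nat.le_floor_iff hy0.le).1 h5.1.2) (not_le.2 h3)
    have hnn : ∀ p : ℕ, 0 ≤ Real.log p / p := fun p => div_nonneg (Real.log_natCast_nonneg p) (Nat.cast_nonneg p)
    have h1 : ∑ p ∈ S, Real.log p / p ≤ Real.log y + Real.log 2 + 2 * C := by
      have h2 : ∑ p ∈ S, Real.log p / p ≤ ∑ p ∈ PP ⌊y ^ 2⌋₊ \ PP ⌊y⌋₊, Real.log p / p :=
        sum_le_sum_of_subset_of_nonneg hS' fun p _ _ => hnn p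
      have h3 := sum_sdiff (f := fun p : ℕ => Real.log p / (p : ℝ)) hsub
      have h4 := (abs_le.1 (h _ hN2)).2
      have h5 := (abs_le.1 (h _ hN1)).1
      have h6 : Real.log (⌊y ^ 2⌋₊ : ℝ) ≤ 2 * Real.log y := by
        have h7 : Real.log (⌊y ^ 2⌋₊ : ℝ) ≤ Real.log (y ^ 2) :=
          Real.log_le_log (by exact_mod_cast hN2) (Nat.floor_le (by positivity))
        rw [Real.log_pow] at h7
        exact_mod_cast h7
      have h7 : Real.log y - Real.log 2 ≤ Real.log (⌊y⌋₊ : ℝ) := by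
        rw [← Real.log_div hy0.ne' (by norm_num)]
        refine Real.log_le_log (by positivity) ?_
        have := Nat.lt_floor_add_one y
        linarith
      linarith
    have h2 : Real.log y * ∑ p ∈ S, 1 / (p : ℝ) ≤ ∑ p ∈ S, Real.log p / p := by
      rw [mul_sum]
      refine sum_le_sum fun p hp => ?_
      obtain ⟨h2, h3, h4⟩ := hS p hp
      have h5 : Real.log y ≤ Real.log p := Real.log_le_log hy0 h3.le
      rw [mul_one_div]
      exact div_le_div_of_nonneg_right h5 (Nat.cast_nonneg p)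
    have h3 : ∑ p ∈ S, 1 / (p : ℝ) ≤ (Real.log y + Real.log 2 + 2 * C) / Real.log y := by
      rw [le_div_iff₀ hly, mul_comm]
      exact h2.trans h1
    refine h3.trans ?_
    have h4 : Real.log 2 ≤ Real.log y := Real.log_le_log (by norm_num) hy2
    have h5 : 2 * C / Real.log y ≤ 2 * C / Real.log 2 := div_le_div_of_nonneg_left (by linarith) hl2 h4
    have h6 : (Real.log y + Real.log 2 + 2 * C) / Real.log y = 1 + Real.log 2 / Real.log y + 2 * C / Real.log y := by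
      field_simp
    have h7 : Real.log 2 / Real.log y ≤ 1 := (div_le_one hly).2 h4
    rw [h6]
    linarith

theorem Vp_eq (T ε : ℝ) : Vp T ε = Pool.Agent.PW.VV ((⌊T ^ ε⌋₊ : ℝ) + 1) := by
  unfold Vp Pool.Agent.PW.VV
  have e : ⌈((⌊T ^ ε⌋₊ : ℝ) + 1)⌉₊ = ⌊T ^ ε⌋₊ + 1 := by
    have : ((⌊T ^ ε⌋₊ : ℝ) + 1) = ((⌊T ^ ε⌋₊ + 1 : ℕ) : ℝ) := by push_cast; rfl
    rw [this, Nat.ceil_natCast]
  rw [e]
  refine prod_congr ?_ fun _ _ => rfl
  ext p
  simp only [mem_filter, mem_Icc, mem_range]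
  constructor
  · rintro ⟨⟨h1, h2⟩, h3⟩
    exact ⟨by omega, h3⟩
  · rintro ⟨h1, h3⟩
    exact ⟨⟨h3.one_le, by omega⟩, h3⟩

theorem cs : CS := by
  constructor
  · obtain ⟨c₀, hc₀, h⟩ := sum_sq
    refine ⟨c₀, hc₀, fun T ε hT hε j S hS => ?_⟩
    have hT0 : 0 < T := by linarith
    refine h (T ^ (ε / 2 ^ (j + 1))) (Real.one_lt_rpow hT (by positivity)) S fun p hp => ?_
    obtain ⟨h1, h2, h3⟩ := hS p hp
    refine ⟨h1, h2, ?_⟩
    rw [← Real.rpow_natCast, ← Real.rpow_mul hT0.le]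
    have e : ε / 2 ^ (j + 1) * ((2 : ℕ) : ℝ) = ε / 2 ^ j := by
      rw [pow_succ]
      push_cast
      field_simp
    rw [e]
    exact h3
  · obtain ⟨c, C, hc, hC, h⟩ := Pool.Agent.PW.VV_bounds
    refine ⟨c / 2, C, by positivity, hC, fun ε hε hε1 => ⟨2 ^ (1 / ε), fun T hT => ?_⟩⟩
    have h20 : (0 : ℝ) < 2 ^ (1 / ε) := by positivity
    have hT0 : 0 < T := by linarith
    have hz : 2 ≤ T ^ ε := by
      have h1 : ((2 : ℝ) ^ (1 / ε)) ^ ε ≤ T ^ ε := Real.rpow_le_rpow h20.le hT hε.le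
      rw [← Real.rpow_mul (by norm_num), one_div, inv_mul_cancel₀ hε.ne', Real.rpow_one] at h1
      exact h1
    have hlz : Real.log (T ^ ε) = ε * Real.log T := Real.log_rpow hT0 ε
    have hlz0 : 0 < Real.log (T ^ ε) := Real.log_pos (by linarith)
    have hL : 0 < Real.log T := by
      rw [hlz] at hlz0
      exact (mul_pos_iff_of_pos_left hε).1 hlz0
    have hN : 2 ≤ ⌊T ^ ε⌋₊ := Nat.le_floor (by push_cast; exact hz)
    have hNr : (2 : ℝ) ≤ ⌊T ^ ε⌋₊ := by exact_mod_cast hN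
    obtain ⟨h1, h2⟩ := h ((⌊T ^ ε⌋₊ : ℝ) + 1) (by linarith)
    rw [← Vp_eq] at h1 h2
    have e1 : Real.log (T ^ ε) ≤ Real.log ((⌊T ^ ε⌋₊ : ℝ) + 1) :=
      Real.log_le_log (by linarith) (Nat.lt_floor_add_one _).le
    have e2 : Real.log ((⌊T ^ ε⌋₊ : ℝ) + 1) ≤ 2 * Real.log (T ^ ε) := by
      have h3 : (⌊T ^ ε⌋₊ : ℝ) ≤ T ^ ε := Nat.floor_le (by linarith)
      have h4 : Real.log ((⌊T ^ ε⌋₊ : ℝ) + 1) ≤ Real.log ((T ^ ε) ^ 2) := Real.log_le_log (by linarith) (by nlinarith)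
      rw [Real.log_pow] at h4
      exact_mod_cast h4
    have e0 : 0 < Real.log ((⌊T ^ ε⌋₊ : ℝ) + 1) := by linarith
    constructor
    · have h3 : c / (2 * Real.log (T ^ ε)) ≤ Vp T ε := (div_le_div_of_nonneg_left hc.le e0 e2).trans h1
      calc c / 2 / ε = Real.log T * (c / (2 * Real.log (T ^ ε))) := by
            rw [hlz]
            field_simp
        _ ≤ Real.log T * Vp T ε := mul_le_mul_of_nonneg_left h3 hL.le
    · have h3 : Vp T ε ≤ C / Real.log (T ^ ε) := h2.trans (div_le_div_of_nonneg_left hC.le hlz0 e1)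
      calc Real.log T * Vp T ε ≤ Real.log T * (C / Real.log (T ^ ε)) := mul_le_mul_of_nonneg_left h3 hL.le
        _ = C / ε := by
            rw [hlz]
            field_simp

end Pool.Agent.Helper65.HG
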